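import Pool.Agent.helper76.UF.Spec

/-!
# Project UF (MP_37e5fa_nt), row UF2: the even part cannot have squared length 2
-/

set_option autoImplicit false

namespace Pool.Agent.UF

open Finset Polynomial NumberField

private lemma UF2_pm (u : ℤ) (h : u ^ 2 = 1) : u = 1 ∨ u = -1 := by
  have h1 : (u - 1) * (u + 1) = 0 := by linear_combination h
  rcases mul_eq_zero.1 h1 with h2 | h2
  · left; omega
  · right; omega

private lemma UF2_one (S : Finset ℕ) (d : ℕ → ℤ) (h : ∑ i ∈ S, (d i) ^ 2 = 1) :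
    ∃ i ∈ S, (d i) ^ 2 = 1 ∧ ∀ k ∈ S, k ≠ i → d k = 0 := by
  have hne : ∃ i ∈ S, d i ≠ 0 := by
    by_contra hcon
    push Not at hcon
    rw [sum_eq_zero (fun i hi => by rw [hcon i hi]; rfl)] at h
    exact zero_ne_one h
  obtain ⟨i, hi, hdi⟩ := hne
  have h1 : (d i) ^ 2 + ∑ k ∈ S.erase i, (d k) ^ 2 = 1 := by
    rw [add_sum_erase S (fun k => (d k) ^ 2) hi]; exact h
  have h2 : 0 ≤ ∑ k ∈ S.erase i, (d k) ^ 2 := sum_nonneg fun k _ => sq_nonneg _
  have h3 : 0 < (d i) ^ 2 := by positivity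
  have h4 : ∑ k ∈ S.erase i, (d k) ^ 2 = 0 := by omega
  refine ⟨i, hi, by omega, fun k hk hki => ?_⟩
  have h5 := (sum_eq_zero_iff_of_nonneg (fun k _ => sq_nonneg (d k))).1 h4 k (mem_erase.2 ⟨hki, hk⟩)
  exact (pow_eq_zero_iff two_ne_zero).1 h5

private lemma UF2_two (S : Finset ℕ) (d : ℕ → ℤ) (h : ∑ i ∈ S, (d i) ^ 2 = 2) :
    ∃ i ∈ S, ∃ j ∈ S, i < j ∧ (d i) ^ 2 = 1 ∧ (d j) ^ 2 = 1 ∧
      ∀ k ∈ S, k ≠ i → k ≠ j → d k = 0 := by
  have hne : ∃ i ∈ S, d i ≠ 0 := by
    by_contra hcon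
    push Not at hcon
    rw [sum_eq_zero (fun i hi => by rw [hcon i hi]; rfl)] at h
    exact absurd h (by norm_num)
  obtain ⟨i, hi, hdi⟩ := hne
  have h1 : (d i) ^ 2 + ∑ k ∈ S.erase i, (d k) ^ 2 = 2 := by
    rw [add_sum_erase S (fun k => (d k) ^ 2) hi]; exact h
  have h2 : 0 ≤ ∑ k ∈ S.erase i, (d k) ^ 2 := sum_nonneg fun k _ => sq_nonneg _
  have h3 : (d i) ^ 2 = 1 := by
    have h4 : d i ≤ 1 := by nlinarith
    have h5 : -1 ≤ d i := by nlinarith
    have h6 : d i = 1 ∨ d i = -1 := by omega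
    rcases h6 with h6 | h6 <;> rw [h6] <;> norm_num
  have h4 : ∑ k ∈ S.erase i, (d k) ^ 2 = 1 := by omega
  obtain ⟨j, hj, hdj, hz⟩ := UF2_one _ d h4
  rw [mem_erase] at hj
  have hz' : ∀ k ∈ S, k ≠ i → k ≠ j → d k = 0 := fun k hk h5 h6 => hz k (mem_erase.2 ⟨h5, hk⟩) h6
  rcases lt_or_gt_of_ne hj.1 with h5 | h5
  · exact ⟨j, hj.2, i, hi, h5, hdj, h3, fun k hk h6 h7 => hz' k hk h7 h6⟩
  · exact ⟨i, hi, j, hj.2, h5, h3, hdj, hz'⟩

private lemma UF2_y {R : Type} [CommRing R] (N : ℕ) (x y : R) (hx : x ^ N = -1) (hyx : y * x = 1)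
    (k : ℕ) (hk : k ≤ N) : y ^ k = -x ^ (N - k) := by
  have h1 : y ^ k * x ^ k = 1 := by rw [← mul_pow, hyx, one_pow]
  have h2 : x ^ k * x ^ (N - k) = -1 := by rw [← pow_add, Nat.add_sub_cancel' hk, hx]
  calc y ^ k = -(y ^ k * (x ^ k * x ^ (N - k))) := by rw [h2]; ring
    _ = -((y ^ k * x ^ k) * x ^ (N - k)) := by ring
    _ = _ := by rw [h1, one_mul]

private lemma UF2_br {R : Type} [CommRing R] (N : ℕ) (hN : 1 ≤ N) (x y : R) (hx : x ^ N = -1)
    (hyx : y * x = 1) (k : ℕ) :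
    ∃ E : ℕ → ℤ, x ^ k + y ^ k = ∑ i ∈ range N, (E i : R) * x ^ i ∧ (¬ N ∣ k → E 0 = 0) := by
  have hyN : y ^ N = -1 := by
    have := UF2_y N x y hx hyx N le_rfl
    rwa [Nat.sub_self, pow_zero] at this
  set r := k % N with hr
  have hrN : r < N := Nat.mod_lt _ hN
  have hk : k = N * (k / N) + r := (Nat.div_add_mod k N).symm
  have h1 : x ^ k = (-1) ^ (k / N) * x ^ r := by
    calc x ^ k = x ^ (N * (k / N) + r) := by rw [← hk]
      _ = _ := by rw [pow_add, pow_mul, hx]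
  have h2 : y ^ k = (-1) ^ (k / N) * y ^ r := by
    calc y ^ k = y ^ (N * (k / N) + r) := by rw [← hk]
      _ = _ := by rw [pow_add, pow_mul, hyN]
  have h3 := UF2_y N x y hx hyx r hrN.le
  by_cases hr0 : r = 0
  · refine ⟨fun i => if i = 0 then 2 * (-1) ^ (k / N) else 0, ?_,
      fun h => absurd (Nat.dvd_of_mod_eq_zero hr0) h⟩
    rw [sum_eq_single 0]
    · rw [h1, h2, hr0]
      show _ = ((if (0 : ℕ) = 0 then 2 * (-1) ^ (k / N) else 0 : ℤ) : R) * x ^ 0
      rw [if_pos rfl]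
      push_cast
      ring
    · intro i _ hi
      show ((if i = 0 then 2 * (-1) ^ (k / N) else 0 : ℤ) : R) * x ^ i = 0
      rw [if_neg hi]
      simp
    · intro h
      exact absurd (mem_range.2 hN) h
  · have hs : ∀ s, s < N → ∑ i ∈ range N, ((if i = s then (1 : ℤ) else 0 : ℤ) : R) * x ^ i = x ^ s := by
      intro s hs
      rw [sum_eq_single s]
      · rw [if_pos rfl]; simp
      · intro i _ hi
        rw [if_neg hi]; simp
      · intro h
        exact absurd (mem_range.2 hs) h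
    refine ⟨fun i => (-1) ^ (k / N) * ((if i = r then 1 else 0) - (if i = N - r then 1 else 0)), ?_,
      fun _ => ?_⟩
    · have h4 : ∑ i ∈ range N, (((-1) ^ (k / N) * ((if i = r then 1 else 0) -
          (if i = N - r then 1 else 0)) : ℤ) : R) * x ^ i =
          (-1) ^ (k / N) * (∑ i ∈ range N, ((if i = r then (1 : ℤ) else 0 : ℤ) : R) * x ^ i -
            ∑ i ∈ range N, ((if i = N - r then (1 : ℤ) else 0 : ℤ) : R) * x ^ i) := by
        rw [← sum_sub_distrib, mul_sum]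
        refine sum_congr rfl fun i _ => ?_
        push_cast
        ring
      rw [h4, hs r hrN, hs (N - r) (by omega), h1, h2, h3]
      ring
    · show (-1) ^ (k / N) * ((if 0 = r then (1 : ℤ) else 0) - (if 0 = N - r then 1 else 0)) = 0
      rw [if_neg (Ne.symm hr0), if_neg (by omega)]
      ring

private lemma UF2_refl {G : Type} [AddCommMonoid G] (N : ℕ) (hN : 1 ≤ N) (f : ℕ → G) (h0 : f 0 = 0) :
    ∑ i ∈ range N, f i = ∑ i ∈ range N, (if i = 0 then 0 else f (N - i)) := by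
  obtain ⟨K, rfl⟩ := Nat.exists_eq_add_of_le' hN
  rw [sum_range_succ', h0, add_zero, sum_range_succ', if_pos rfl, add_zero, ← sum_range_reflect]
  refine sum_congr rfl fun i hi => ?_
  rw [mem_range] at hi
  rw [if_neg (Nat.succ_ne_zero i)]
  congr 1
  omega

private lemma UF2_fold {G : Type} [AddCommMonoid G] (M : ℕ) (hM : 1 ≤ M) (f : ℕ → G) (h0 : f M = 0) :
    ∑ i ∈ range (2 * M), f i =
      ∑ i ∈ range M, (f i + if i = 0 then 0 else f (2 * M - i)) := by
  rw [two_mul, sum_range_add, sum_add_distrib]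
  congr 1
  rw [UF2_refl M hM (fun i => f (M + i)) (by simpa using h0)]
  refine sum_congr rfl fun i hi => ?_
  rw [mem_range] at hi
  by_cases h : i = 0
  · rw [if_pos h, if_pos h]
  · rw [if_neg h, if_neg h]
    congr 1
    omega

theorem UF2 (h1 : CST_stmt) (h2 : UNU_stmt) (h3 : UC1_stmt) (h4 : UC2_stmt) : UF2_stmt := by
  intro m R _ _ x b hm hB hb c c' A B hA hBB hc hAB1 hAB2
  have hx : x ^ (2 ^ m) = -1 := hB.1
  have hyx : b x * x = 1 := hb.1
  -- the modulus
  obtain ⟨M, hM⟩ : ∃ M, M = 2 ^ (m - 1) := ⟨_, rfl⟩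
  have hNM : 2 ^ m = 2 * M := by
    rw [hM, ← pow_succ']
    congr 1
    omega
  have hM8 : 8 ≤ M := by
    rw [hM]
    calc 8 = 2 ^ 3 := by norm_num
      _ ≤ 2 ^ (m - 1) := Nat.pow_le_pow_right (by norm_num) (by omega)
  have hMe : Even M := by
    rw [hM]
    exact (Nat.even_pow.2 ⟨even_two, by omega⟩)
  have hN1 : 1 ≤ 2 ^ m := by omega
  -- step 1: the shape of A
  obtain ⟨i1, hi1, i2, hi2, hlt, hc1, hc2, hc0⟩ := UF2_two _ c hc
  rw [mem_filter, mem_range] at hi1 hi2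
  have hAe : A = (c i1 : R) * x ^ i1 + (c i2 : R) * x ^ i2 := by
    rw [hA]
    refine sum_eq_add i1 i2 hlt.ne (fun k hk hk2 => ?_) (fun h => absurd (mem_filter.2 ⟨mem_range.2 hi1.1, hi1.2⟩) h)
      (fun h => absurd (mem_filter.2 ⟨mem_range.2 hi2.1, hi2.2⟩) h)
    rw [hc0 k hk hk2.1 hk2.2]
    simp
  have hje : ∃ j e : ℕ, Even j ∧ Even e ∧ ¬ 2 ^ m ∣ e ∧ A = x ^ j * (1 + x ^ e) := by
    obtain ⟨t, rfl⟩ := Nat.exists_eq_add_of_lt hlt
    have ht : Even (t + 1) := by
      have := hi2.2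
      rw [add_assoc, Nat.even_add] at this
      exact this.1 hi1.2
    have hNe : Even (2 ^ m) := by rw [hNM]; exact even_two_mul M
    have hnd : ¬ 2 ^ m ∣ t + 1 := fun h => absurd (Nat.le_of_dvd (by omega) h) (by omega)
    have hnd2 : ¬ 2 ^ m ∣ t + 1 + 2 ^ m := fun h => hnd ((Nat.dvd_add_left (dvd_refl _)).1 h)
    rw [add_assoc] at hAe
    rcases UF2_pm _ hc1 with e1 | e1 <;> rcases UF2_pm _ hc2 with e2 | e2 <;>
      rw [add_assoc] at e2 <;> rw [e1, e2] at hAe
    · refine ⟨i1, t + 1, hi1.2, ht, hnd, ?_⟩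
      rw [hAe, pow_add x i1 (t + 1)]
      push_cast
      ring
    · refine ⟨i1, t + 1 + 2 ^ m, hi1.2, ht.add hNe, hnd2, ?_⟩
      rw [hAe, pow_add x i1 (t + 1), pow_add x (t + 1) (2 ^ m), hx]
      push_cast
      ring
    · refine ⟨i1 + 2 ^ m, t + 1 + 2 ^ m, hi1.2.add hNe, ht.add hNe, hnd2, ?_⟩
      rw [hAe, pow_add x i1 (t + 1), pow_add x (t + 1) (2 ^ m), pow_add x i1 (2 ^ m), hx]
      push_cast
      ring
    · refine ⟨i1 + 2 ^ m, t + 1, hi1.2.add hNe, ht, hnd, ?_⟩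
      rw [hAe, pow_add x i1 (t + 1), pow_add x i1 (2 ^ m), hx]
      push_cast
      ring
  obtain ⟨j, e, hj, he, hne, hAj⟩ := hje
  -- step 2
  obtain ⟨ν, d, hν, hd0, hbν, hνν⟩ := h2 m R x b (by omega) hB hb j e c' A B hj he hAj hBB hAB1 hAB2
  -- step 3: symmetry
  have hsym : ∀ i, 0 < i → i < 2 ^ m → d (2 ^ m - i) = d i := by
    have e1 : b ν = ∑ i ∈ range (2 ^ m), (d i : R) * (b x) ^ i := by
      rw [hν, map_sum]
      refine sum_congr rfl fun i _ => ?_
      rw [map_mul, map_intCast, map_pow]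
    have e2 : b ν = -∑ i ∈ range (2 ^ m), (d i : R) * x ^ (2 ^ m - i) := by
      rw [e1, ← sum_neg_distrib]
      refine sum_congr rfl fun i hi => ?_
      rw [UF2_y (2 ^ m) x (b x) hx hyx i (mem_range.1 hi).le]
      ring
    have e3 : ∑ i ∈ range (2 ^ m), (d i : R) * x ^ (2 ^ m - i) =
        ∑ i ∈ range (2 ^ m), (if i = 0 then 0 else (d (2 ^ m - i) : R) * x ^ i) := by
      rw [UF2_refl (2 ^ m) hN1 (fun i => (d i : R) * x ^ (2 ^ m - i)) (by
        show (d 0 : R) * _ = 0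
        rw [hd0 0 (by decide)]; simp)]
      refine sum_congr rfl fun i hi => ?_
      rw [mem_range] at hi
      by_cases h : i = 0
      · rw [if_pos h, if_pos h]
      · rw [if_neg h, if_neg h]
        congr 2
        omega
    have e4 : ∑ i ∈ range (2 ^ m), ((d i - (if i = 0 then 0 else d (2 ^ m - i)) : ℤ) : R) * x ^ i = 0 := by
      have e5 : ∑ i ∈ range (2 ^ m), ((d i - (if i = 0 then 0 else d (2 ^ m - i)) : ℤ) : R) * x ^ i =
          ∑ i ∈ range (2 ^ m), (d i : R) * x ^ i -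
            ∑ i ∈ range (2 ^ m), (if i = 0 then 0 else (d (2 ^ m - i) : R) * x ^ i) := by
        rw [← sum_sub_distrib]
        refine sum_congr rfl fun i _ => ?_
        by_cases h : i = 0
        · rw [if_pos h, if_pos h]; push_cast; ring
        · rw [if_neg h, if_neg h]; push_cast; ring
      rw [e5, ← e3, ← hν]
      linear_combination hbν - e2
    intro i hi0 hi
    have e6 := hB.2 _ e4 i hi
    rw [if_neg (by omega : i ≠ 0)] at e6
    omega
  -- step 4: folding
  have hdM : d M = 0 := hd0 M hMe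
  have hνf : ν = ∑ i ∈ range M, (d i : R) * (x ^ i - (b x) ^ i) := by
    rw [hν, hNM, UF2_fold M (by omega) (fun i => (d i : R) * x ^ i) (by
      show (d M : R) * _ = 0
      rw [hdM]; simp)]
    refine sum_congr rfl fun i hi => ?_
    rw [mem_range] at hi
    by_cases h : i = 0
    · rw [if_pos h, h, hd0 0 (by decide)]; simp
    · rw [if_neg h]
      have e1 := hsym i (by omega) (by omega)
      rw [hNM] at e1
      have e2 := UF2_y (2 ^ m) x (b x) hx hyx i (by omega)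
      rw [hNM] at e2
      show (d i : R) * x ^ i + (d (2 * M - i) : R) * x ^ (2 * M - i) = _
      rw [e1, e2]
      ring
  have hsq : ∑ i ∈ range (2 ^ m), (d i) ^ 2 = 2 * ∑ i ∈ range M, (d i) ^ 2 := by
    rw [hNM, UF2_fold M (by omega) (fun i => (d i) ^ 2) (by
      show (d M) ^ 2 = 0
      rw [hdM]; norm_num), mul_sum]
    refine sum_congr rfl fun i hi => ?_
    rw [mem_range] at hi
    by_cases h : i = 0
    · rw [if_pos h, h, hd0 0 (by decide)]; norm_num
    · rw [if_neg h]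
      have e1 := hsym i (by omega) (by omega)
      rw [hNM] at e1
      show (d i) ^ 2 + (d (2 * M - i)) ^ 2 = _
      rw [e1]
      ring
  obtain ⟨E2, hE2, hE20⟩ := UF2_br (2 ^ m) hN1 x (b x) hx hyx 2
  have hE20' : E2 0 = 0 := hE20 (fun h => absurd (Nat.le_of_dvd (by norm_num) h) (by omega))
  have hconst : ∀ k : ℤ, ∑ i ∈ range (2 ^ m), ((if i = 0 then k else 0 : ℤ) : R) * x ^ i = (k : R) := by
    intro k
    rw [sum_eq_single 0]
    · rw [if_pos rfl, pow_zero, mul_one]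
    · intro i _ hi
      rw [if_neg hi]; simp
    · intro h
      exact absurd (mem_range.2 hN1) h
  have hodd : ∀ i, (d i) ^ 2 = 1 → Odd i := by
    intro i hi
    by_contra h
    rw [Nat.not_odd_iff_even] at h
    rw [hd0 i h] at hi
    norm_num at hi
  by_cases h2e : 2 ^ m ∣ 2 * e
  · -- second case
    obtain ⟨q, hq⟩ := h2e
    have hqo : Odd q := by
      by_contra h
      rw [Nat.not_odd_iff_even] at h
      obtain ⟨q', hq'⟩ := h
      refine hne ⟨q', ?_⟩
      rw [hq'] at hq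
      nlinarith
    have hx2e : x ^ (2 * e) = -1 := by rw [hq, pow_mul, hx, hqo.neg_one_pow]
    have hy2e : b x ^ (2 * e) = -1 := by
      have e1 : b x ^ (2 * e) * x ^ (2 * e) = 1 := by rw [← mul_pow, hyx, one_pow]
      rw [hx2e] at e1
      linear_combination -e1
    have hxye : x ^ e + b x ^ e = 0 := by
      have e1 : b x ^ e * x ^ e = 1 := by rw [← mul_pow, hyx, one_pow]
      have e2 : x ^ (2 * e) = x ^ e * x ^ e := by rw [two_mul, pow_add]
      rw [e2] at hx2e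
      linear_combination b x ^ e * hx2e - x ^ e * e1
    rw [hx2e, hy2e, hxye] at hνν
    have hD : ν * b ν = ∑ i ∈ range (2 ^ m), (((if i = 0 then 4 else 0) - E2 i : ℤ) : R) * x ^ i := by
      have e1 : ∑ i ∈ range (2 ^ m), (((if i = 0 then 4 else 0) - E2 i : ℤ) : R) * x ^ i =
          ∑ i ∈ range (2 ^ m), ((if i = 0 then 4 else 0 : ℤ) : R) * x ^ i -
            ∑ i ∈ range (2 ^ m), (E2 i : R) * x ^ i := by
        rw [← sum_sub_distrib]
        refine sum_congr rfl fun i _ => ?_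
        push_cast
        ring
      rw [e1, hconst, ← hE2, hνν]
      push_cast
      ring
    rw [hν] at hD
    have hsum := h1 (2 ^ m) R x b hN1 hB hb d _ hD
    simp only [if_true] at hsum
    rw [hE20', hsq] at hsum
    obtain ⟨i, hi, k, hk, hik, hdi, hdk, hz⟩ := UF2_two (range M) d (by omega)
    rw [mem_range] at hi hk
    have hνe : ν = (d i : R) * (x ^ i - (b x) ^ i) + (d k : R) * (x ^ k - (b x) ^ k) := by
      rw [hνf]
      refine sum_eq_add i k hik.ne (fun s hs hs2 => ?_) (fun h => absurd (mem_range.2 hi) h)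
        (fun h => absurd (mem_range.2 hk) h)
      rw [hz s hs hs2.1 hs2.2]
      simp
    obtain ⟨E3, hE3, -⟩ := UF2_br (2 ^ m) hN1 x (b x) hx hyx (i + k)
    obtain ⟨E4, hE4, -⟩ := UF2_br (2 ^ m) hN1 x (b x) hx hyx (k - i)
    refine h4 m R x b hm hB hb i k (fun s => d i * d k * (E3 s - E4 s)) (hodd i hdi) (hodd k hdk) hik
      (by omega) ?_
    have e1 : ∑ s ∈ range (2 ^ m), ((d i * d k * (E3 s - E4 s) : ℤ) : R) * x ^ s =
        (d i : R) * (d k : R) * ((x ^ (i + k) + (b x) ^ (i + k)) - (x ^ (k - i) + (b x) ^ (k - i))) := by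
      rw [hE3, hE4, ← sum_sub_distrib, mul_sum]
      refine sum_congr rfl fun s _ => ?_
      push_cast
      ring
    rw [e1]
    obtain ⟨t, rfl⟩ := Nat.exists_eq_add_of_lt hik
    have ht : i + t + 1 - i = t + 1 := by omega
    rw [ht]
    have hXY : b x ^ i * x ^ i = 1 := by rw [← mul_pow, hyx, one_pow]
    have hTS : b x ^ (t + 1) * x ^ (t + 1) = 1 := by rw [← mul_pow, hyx, one_pow]
    have hDi : (d i : R) ^ 2 = 1 := by
      have := congrArg (fun z : ℤ => (z : R)) hdi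
      simpa using this
    have hDk : (d (i + t + 1) : R) ^ 2 = 1 := by
      have := congrArg (fun z : ℤ => (z : R)) hdk
      simpa using this
    rw [hbν, hνe] at hνν
    have p1 : x ^ (i + t + 1) = x ^ i * x ^ (t + 1) := by rw [add_assoc, pow_add]
    have p2 : b x ^ (i + t + 1) = b x ^ i * b x ^ (t + 1) := by rw [add_assoc, pow_add]
    have p3 : x ^ (i + (i + t + 1)) = x ^ i * (x ^ i * x ^ (t + 1)) := by rw [pow_add, p1]
    have p4 : b x ^ (i + (i + t + 1)) = b x ^ i * (b x ^ i * b x ^ (t + 1)) := by rw [pow_add, p2]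
    have p5 : x ^ (2 * i) = x ^ i * x ^ i := by rw [two_mul, pow_add]
    have p6 : b x ^ (2 * i) = b x ^ i * b x ^ i := by rw [two_mul, pow_add]
    have p7 : x ^ (2 * (i + t + 1)) = (x ^ i * x ^ (t + 1)) * (x ^ i * x ^ (t + 1)) := by
      rw [two_mul, pow_add, p1]
    have p8 : b x ^ (2 * (i + t + 1)) = (b x ^ i * b x ^ (t + 1)) * (b x ^ i * b x ^ (t + 1)) := by
      rw [two_mul, pow_add, p2]
    rw [p1, p2] at hνν
    rw [p3, p4, p5, p6, p7, p8]
    generalize x ^ i = X at *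
    generalize b x ^ i = Y at *
    generalize x ^ (t + 1) = T at *
    generalize b x ^ (t + 1) = S at *
    generalize (d i : R) = u at *
    generalize (d (i + t + 1) : R) = w at *
    have hXT : Y * S * (X * T) = 1 := by linear_combination Y * X * hTS + hXY
    linear_combination (-1 : R) * hνν - (X - Y) ^ 2 * hDi - (X * T - Y * S) ^ 2 * hDk + 2 * hXY +
      2 * hXT + (2 : R) * u * w * (T + S) * hXY
  · -- first case
    obtain ⟨Ee, hEe, hEe0⟩ := UF2_br (2 ^ m) hN1 x (b x) hx hyx e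
    obtain ⟨Ef, hEf, hEf0⟩ := UF2_br (2 ^ m) hN1 x (b x) hx hyx (2 * e)
    have hD : ν * b ν = ∑ i ∈ range (2 ^ m),
        (((if i = 0 then 2 else 0) + Ee i - Ef i - E2 i : ℤ) : R) * x ^ i := by
      have e1 : ∑ i ∈ range (2 ^ m), (((if i = 0 then 2 else 0) + Ee i - Ef i - E2 i : ℤ) : R) * x ^ i =
          ∑ i ∈ range (2 ^ m), ((if i = 0 then 2 else 0 : ℤ) : R) * x ^ i +
            ∑ i ∈ range (2 ^ m), (Ee i : R) * x ^ i - ∑ i ∈ range (2 ^ m), (Ef i : R) * x ^ i -
            ∑ i ∈ range (2 ^ m), (E2 i : R) * x ^ i := by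
        rw [← sum_add_distrib, ← sum_sub_distrib, ← sum_sub_distrib]
        refine sum_congr rfl fun i _ => ?_
        push_cast
        ring
      rw [e1, hconst, ← hE2, ← hEe, ← hEf, hνν]
      push_cast
      ring
    rw [hν] at hD
    have hsum := h1 (2 ^ m) R x b hN1 hB hb d _ hD
    simp only [if_true] at hsum
    rw [hE20', hEe0 hne, hEf0 h2e, hsq] at hsum
    obtain ⟨i, hi, hdi, hz⟩ := UF2_one (range M) d (by omega)
    rw [mem_range] at hi
    have hνe : ν = (d i : R) * (x ^ i - (b x) ^ i) := by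
      rw [hνf]
      refine sum_eq_single i (fun s hs hs2 => ?_) (fun h => absurd (mem_range.2 hi) h)
      rw [hz s hs hs2]
      simp
    have hXY : b x ^ i * x ^ i = 1 := by rw [← mul_pow, hyx, one_pow]
    have hDi : (d i : R) ^ 2 = 1 := by
      have := congrArg (fun z : ℤ => (z : R)) hdi
      simpa using this
    refine h3 m R x b hm hB hb i e (hodd i hdi) he h2e ?_
    rw [hbν, hνe] at hνν
    have p5 : x ^ (2 * i) = x ^ i * x ^ i := by rw [two_mul, pow_add]
    have p6 : b x ^ (2 * i) = b x ^ i * b x ^ i := by rw [two_mul, pow_add]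
    rw [p5, p6]
    linear_combination (-1 : R) * hνν - (x ^ i - b x ^ i) ^ 2 * hDi + 2 * hXY

end Pool.Agent.UF
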